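import Pool.Agent.Run7.h219.LS.Stm
import Pool.Agent.W22.MF.OSC

/-! Scaling and translation of local solutions. -/

set_option autoImplicit false

open MeasureTheory Set Metric Filter Topology
open scoped ContDiff ENNReal

namespace Run7.h21.LS

open H459R3.NS W221.NS Run7.h219.LS

/-- The affine map `x ↦ x₀ + l (x - cc)`. -/
noncomputable def aff (l : ℝ) (x₀ x : V) : V := x₀ + l • (x - cc)

/-- The inverse map. -/
noncomputable def ffa (l : ℝ) (x₀ y : V) : V := cc + l⁻¹ • (y - x₀)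

lemma aff_ffa {l : ℝ} (hl : l ≠ 0) (x₀ y : V) : aff l x₀ (ffa l x₀ y) = y := by
  unfold aff ffa
  rw [add_sub_cancel_left, smul_smul, mul_inv_cancel₀ hl, one_smul, add_sub_cancel]

lemma ffa_aff {l : ℝ} (hl : l ≠ 0) (x₀ x : V) : ffa l x₀ (aff l x₀ x) = x := by
  unfold aff ffa
  rw [add_sub_cancel_left, smul_smul, inv_mul_cancel₀ hl, one_smul, add_sub_cancel]

lemma aff_contDiff (l : ℝ) (x₀ : V) : ContDiff ℝ ∞ (aff l x₀) := by
  unfold aff
  fun_prop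

lemma ffa_cont (l : ℝ) (x₀ : V) : Continuous (ffa l x₀) := by
  unfold ffa
  fun_prop

/-- The affine map as a homeomorphism. -/
noncomputable def affH {l : ℝ} (hl : l ≠ 0) (x₀ : V) : V ≃ₜ V where
  toFun := aff l x₀
  invFun := ffa l x₀
  left_inv := ffa_aff hl x₀
  right_inv := aff_ffa hl x₀
  continuous_toFun := (aff_contDiff l x₀).continuous
  continuous_invFun := ffa_cont l x₀

lemma aff_emb {l : ℝ} (hl : l ≠ 0) (x₀ : V) : MeasurableEmbedding (aff l x₀) :=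
  (affH hl x₀).measurableEmbedding

lemma norm_aff_sub {l : ℝ} (hl : 0 < l) (x₀ x y : V) :
    ‖aff l x₀ x - aff l x₀ y‖ = l * ‖x - y‖ := by
  have e : aff l x₀ x - aff l x₀ y = l • (x - y) := by
    unfold aff
    rw [add_sub_add_left_eq_sub, ← smul_sub, sub_sub_sub_cancel_right]
  rw [e, norm_smul, Real.norm_of_nonneg hl.le]

lemma aff_cc (l : ℝ) (x₀ : V) : aff l x₀ cc = x₀ := by
  unfold aff
  rw [sub_self, smul_zero, add_zero]

lemma norm_aff_cc {l : ℝ} (hl : 0 < l) (x₀ x : V) : ‖aff l x₀ x - x₀‖ = l * ‖x - cc‖ := by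
  have h := norm_aff_sub hl x₀ x cc
  rwa [aff_cc] at h

lemma aff_eq (l : ℝ) (x₀ x : V) : aff l x₀ x = l • x + (x₀ - l • cc) := by
  unfold aff
  rw [smul_sub]
  abel

lemma pd_aff (l : ℝ) (x₀ : V) (j : Fin 3) (f : V → ℝ) (x : V) :
    pd j (fun y => f (aff l x₀ y)) x = l * pd j f (aff l x₀ x) := by
  unfold pd
  have e : (fun y => f (aff l x₀ y)) = fun y => (fun z => f (z + (x₀ - l • cc))) (l • y) := by
    funext y
    rw [aff_eq]
  rw [e, fderiv_comp_smul (f := fun z => f (z + (x₀ - l • cc))), fderiv_comp_add_right, aff_eq]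
  rfl

lemma map_aff {l : ℝ} (hl : 0 < l) (x₀ : V) :
    Measure.map (aff l x₀) volume = ENNReal.ofReal ((l ^ 3)⁻¹) • (volume : Measure V) := by
  have e : aff l x₀ = (fun z => z + (x₀ - l • cc)) ∘ (fun y => l • y) := by
    funext x
    rw [aff_eq]
    rfl
  rw [e, ← Measure.map_map (measurable_add_const _) (measurable_const_smul _),
    Measure.map_addHaar_smul volume hl.ne', Measure.map_smul, map_add_right_eq_self]
  congr 2
  rw [Module.finrank_fin_fun, abs_of_nonneg (by positivity)]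

lemma setIntegral_aff {l : ℝ} (hl : 0 < l) (x₀ : V) (s : Set V) (f : V → ℝ) :
    ∫ x in aff l x₀ ⁻¹' s, f (aff l x₀ x) = (l ^ 3)⁻¹ * ∫ y in s, f y := by
  rw [← (aff_emb hl.ne' x₀).setIntegral_map, map_aff hl, Measure.restrict_smul,
    integral_smul_measure, ENNReal.toReal_ofReal (by positivity), smul_eq_mul]

lemma integrableOn_aff {l : ℝ} (hl : 0 < l) (x₀ : V) {s : Set V} {f : V → ℝ}
    (hf : IntegrableOn f s) : IntegrableOn (fun x => f (aff l x₀ x)) (aff l x₀ ⁻¹' s) := by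
  have h := (aff_emb hl.ne' x₀).integrableOn_map_iff (f := f) (μ := volume) (s := s)
  refine h.1 ?_
  rw [map_aff hl]
  unfold IntegrableOn at hf ⊢
  rw [Measure.restrict_smul]
  exact hf.smul_measure ENNReal.ofReal_ne_top

lemma setLIntegral_aff {l : ℝ} (hl : 0 < l) (x₀ : V) (s : Set V) (f : V → ℝ≥0∞) :
    ∫⁻ x in aff l x₀ ⁻¹' s, f (aff l x₀ x) = ENNReal.ofReal ((l ^ 3)⁻¹) * ∫⁻ y in s, f y := by
  have h := (aff_emb hl.ne' x₀).restrict_map volume s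
  rw [map_aff hl, Measure.restrict_smul] at h
  rw [← (aff_emb hl.ne' x₀).lintegral_map, ← h, lintegral_smul_measure, smul_eq_mul]

/-- The scaled velocity. -/
noncomputable def su (l : ℝ) (x₀ : V) (u : ℝ → V → V) (t : ℝ) (x : V) : V :=
  l • u (l ^ 2 * t) (aff l x₀ x)

/-- The scaled pressure. -/
noncomputable def sp (l : ℝ) (x₀ : V) (p : ℝ → V → ℝ) (t : ℝ) (x : V) : ℝ :=
  l ^ 2 * p (l ^ 2 * t) (aff l x₀ x)

lemma nsq_su (l : ℝ) (x₀ : V) (u : ℝ → V → V) (t : ℝ) (x : V) :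
    nsq (su l x₀ u t) x = l ^ 2 * nsq (u (l ^ 2 * t)) (aff l x₀ x) := by
  unfold nsq su
  rw [Finset.mul_sum]
  refine Finset.sum_congr rfl fun i _ => ?_
  rw [Pi.smul_apply, smul_eq_mul, mul_pow]

lemma pd_su (l : ℝ) (x₀ : V) (u : ℝ → V → V) (t : ℝ) (i j : Fin 3) (x : V) :
    pd j (fun y => su l x₀ u t y i) x = l ^ 2 * pd j (fun y => u (l ^ 2 * t) y i) (aff l x₀ x) := by
  have e : (fun y => su l x₀ u t y i) = fun y => l * (fun z => u (l ^ 2 * t) z i) (aff l x₀ y) := by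
    funext y
    rfl
  rw [e, Pool.Agent.W22.MF.pd_const_mul l j (fun y => (fun z => u (l ^ 2 * t) z i) (aff l x₀ y)),
    pd_aff l x₀ j (fun z => u (l ^ 2 * t) z i) x]
  ring

lemma pd_pd_su (l : ℝ) (x₀ : V) (u : ℝ → V → V) (t : ℝ) (i j : Fin 3) (x : V) :
    pd j (pd j (fun y => su l x₀ u t y i)) x
      = l ^ 3 * pd j (pd j (fun y => u (l ^ 2 * t) y i)) (aff l x₀ x) := by
  have e : pd j (fun y => su l x₀ u t y i)
      = fun y => l ^ 2 * pd j (fun y => u (l ^ 2 * t) y i) (aff l x₀ y) := by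
    funext y
    exact pd_su l x₀ u t i j y
  rw [e, Pool.Agent.W22.MF.pd_const_mul (l ^ 2) j
    (fun y => pd j (fun y => u (l ^ 2 * t) y i) (aff l x₀ y)),
    pd_aff l x₀ j (pd j (fun y => u (l ^ 2 * t) y i))]
  ring

lemma pd_sp (l : ℝ) (x₀ : V) (p : ℝ → V → ℝ) (t : ℝ) (i : Fin 3) (x : V) :
    pd i (sp l x₀ p t) x = l ^ 3 * pd i (p (l ^ 2 * t)) (aff l x₀ x) := by
  have e : sp l x₀ p t = fun y => l ^ 2 * (p (l ^ 2 * t)) (aff l x₀ y) := rfl
  rw [e, Pool.Agent.W22.MF.pd_const_mul (l ^ 2) i (fun y => (p (l ^ 2 * t)) (aff l x₀ y)),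
    pd_aff l x₀ i (p (l ^ 2 * t))]
  ring

lemma gsq_su (l : ℝ) (x₀ : V) (u : ℝ → V → V) (t : ℝ) (x : V) :
    gsq (su l x₀ u t) x = l ^ 4 * gsq (u (l ^ 2 * t)) (aff l x₀ x) := by
  unfold gsq
  rw [Finset.mul_sum]
  refine Finset.sum_congr rfl fun i _ => ?_
  rw [Finset.mul_sum]
  refine Finset.sum_congr rfl fun j _ => ?_
  rw [pd_su]
  ring

lemma deriv_su (l : ℝ) (x₀ : V) (u : ℝ → V → V) (t : ℝ) (i : Fin 3) (x : V) :
    deriv (fun s => su l x₀ u s x i) t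
      = l ^ 3 * deriv (fun s => u s (aff l x₀ x) i) (l ^ 2 * t) := by
  have e : (fun s => su l x₀ u s x i)
      = fun s => l * (fun τ => u τ (aff l x₀ x) i) (l ^ 2 * s) := rfl
  rw [e, deriv_const_mul_field, deriv_comp_mul_left (l ^ 2) (fun τ => u τ (aff l x₀ x) i) t,
    smul_eq_mul]
  ring

lemma time_mem {l T t : ℝ} (hl : 0 < l) (ht : t ∈ Ioo 0 (T / l ^ 2)) : l ^ 2 * t ∈ Ioo 0 T := by
  have hl2 : 0 < l ^ 2 := by positivity
  refine ⟨mul_pos hl2 ht.1, ?_⟩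
  have h := ht.2
  rw [lt_div_iff₀ hl2] at h
  linarith

/-- Scaling and translation of a local solution. -/
theorem osol_aff {T E : ℝ} {Ω : Set V} {u : ℝ → V → V} {p : ℝ → V → ℝ} (h : OSol 1 T E Ω u p)
    {l : ℝ} (hl : 0 < l) (x₀ : V) :
    OSol 1 (T / l ^ 2) (E / √l) (aff l x₀ ⁻¹' Ω) (su l x₀ u) (sp l x₀ p) := by
  have hmaps : MapsTo (fun z : ℝ × V => (l ^ 2 * z.1, aff l x₀ z.2))
      (Ioo 0 (T / l ^ 2) ×ˢ (aff l x₀ ⁻¹' Ω)) (Ioo 0 T ×ˢ Ω) := by
    rintro ⟨t, x⟩ ⟨ht, hx⟩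
    exact ⟨time_mem hl ht, hx⟩
  have hlin : ContDiff ℝ ∞ (fun z : ℝ × V => (l ^ 2 * z.1, aff l x₀ z.2)) := by
    have h1 := aff_contDiff l x₀
    exact (contDiff_const.mul contDiff_fst).prodMk (h1.comp contDiff_snd)
  refine ⟨h.openO.preimage (aff_contDiff l x₀).continuous, ?_, ?_, ?_, ?_, ?_, ?_⟩
  · have h1 := (h.smooth_u.comp hlin.contDiffOn hmaps).const_smul l
    exact h1
  · have h1 := (h.smooth_p.comp hlin.contDiffOn hmaps).const_smul (l ^ 2)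
    exact h1
  · intro t ht x hx
    have h1 := h.divfree _ (time_mem hl ht) _ hx
    rw [Finset.sum_congr rfl fun i _ => pd_su l x₀ u t i i x, ← Finset.mul_sum, h1, mul_zero]
  · intro t ht x hx i
    have h1 := h.momentum _ (time_mem hl ht) _ hx i
    rw [deriv_su, pd_sp, Finset.sum_congr rfl fun j _ => pd_pd_su l x₀ u t i j x, ← Finset.mul_sum]
    have e5 : ∑ j, su l x₀ u t x j * pd j (fun y => su l x₀ u t y i) x =
        l ^ 3 * ∑ j, u (l ^ 2 * t) (aff l x₀ x) j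
          * pd j (fun y => u (l ^ 2 * t) y i) (aff l x₀ x) := by
      rw [Finset.mul_sum]
      refine Finset.sum_congr rfl fun j _ => ?_
      rw [pd_su]
      have e6 : su l x₀ u t x j = l * u (l ^ 2 * t) (aff l x₀ x) j := rfl
      rw [e6]
      ring
    rw [e5]
    have h2 := congrArg (fun z => l ^ 3 * z) h1
    simp only [mul_add, mul_sub] at h2
    rw [h2]
    ring
  · intro t ht
    have h1 : IntegrableOn (fun x => l ^ 2 * nsq (u (l ^ 2 * t)) (aff l x₀ x)) (aff l x₀ ⁻¹' Ω) :=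
      (integrableOn_aff hl x₀ (h.en_int _ (time_mem hl ht))).const_mul _
    refine h1.congr (Filter.Eventually.of_forall fun x => ?_)
    exact (nsq_su l x₀ u t x).symm
  · intro t ht
    have h1 : ∫ x in aff l x₀ ⁻¹' Ω, nsq (su l x₀ u t) x =
        l ^ 2 * ((l ^ 3)⁻¹ * ∫ x in Ω, nsq (u (l ^ 2 * t)) x) := by
      rw [← setIntegral_aff hl x₀ Ω (nsq (u (l ^ 2 * t))), ← integral_const_mul]
      refine integral_congr_ae (Filter.Eventually.of_forall fun x => ?_)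
      exact nsq_su l x₀ u t x
    have h2 := mul_le_mul_of_nonneg_left (h.en _ (time_mem hl ht)) (inv_nonneg.2 hl.le)
    have h3 : (E / √l) ^ 2 = l⁻¹ * E ^ 2 := by
      rw [div_pow, Real.sq_sqrt hl.le, div_eq_inv_mul]
    rw [h3, h1]
    refine le_trans (le_of_eq ?_) h2
    field_simp

lemma sing_aff {T : ℝ} {u : ℝ → V → V} {l : ℝ} (hl : 0 < l) (x₀ : V) {x : V} (h : Sing T u x) :
    Sing (T / l ^ 2) (su l x₀ u) (ffa l x₀ x) := by
  intro δ hδ B
  have hl2 : 0 < l ^ 2 := by positivity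
  have hδ' : 0 < min (l ^ 2 * δ) (l * δ) := lt_min (by positivity) (by positivity)
  obtain ⟨t, ht, y, hy, hB⟩ := h _ hδ' (B / l)
  refine ⟨t / l ^ 2, ⟨?_, ?_⟩, ffa l x₀ y, ?_, ?_⟩
  · rw [lt_div_iff₀ hl2]
    have h1 : T - l ^ 2 * δ < t := lt_of_le_of_lt (by linarith [min_le_left (l ^ 2 * δ) (l * δ)]) ht.1
    have h2 : (T / l ^ 2 - δ) * l ^ 2 = T - l ^ 2 * δ := by field_simp
    linarith
  · exact div_lt_div_of_pos_right ht.2 hl2
  · rw [mem_ball, dist_eq_norm] at hy ⊢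
    have h1 := norm_aff_sub hl x₀ (ffa l x₀ y) (ffa l x₀ x)
    rw [aff_ffa hl.ne', aff_ffa hl.ne'] at h1
    have h2 : l * ‖ffa l x₀ y - ffa l x₀ x‖ < l * δ := by
      rw [← h1]
      exact hy.trans_le (min_le_right _ _)
    exact lt_of_mul_lt_mul_left h2 hl.le
  · have e : su l x₀ u (t / l ^ 2) (ffa l x₀ y) = l • u t y := by
      unfold su
      rw [aff_ffa hl.ne', mul_div_cancel₀ t hl2.ne']
    rw [e, norm_smul, Real.norm_of_nonneg hl.le, mul_comm]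
    rwa [div_lt_iff₀ hl] at hB

/-- The dissipation of the scaled solution. -/
lemma diss_aff {T : ℝ} {Ω : Set V} {u : ℝ → V → V} {l : ℝ} (hl : 0 < l) (x₀ : V)
    (h : ∫⁻ t in Ioo 0 T, ∫⁻ y in Ω, ENNReal.ofReal (gsq (u t) y) ≠ ⊤) :
    ∫⁻ t in Ioo 0 (T / l ^ 2), ∫⁻ y in aff l x₀ ⁻¹' Ω, ENNReal.ofReal (gsq (su l x₀ u t) y) ≠ ⊤ := by
  have hl2 : 0 < l ^ 2 := by positivity
  have e1 : ∀ t, ∫⁻ y in aff l x₀ ⁻¹' Ω, ENNReal.ofReal (gsq (su l x₀ u t) y)
      = (ENNReal.ofReal (l ^ 4) * ENNReal.ofReal ((l ^ 3)⁻¹)) *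
        ∫⁻ y in Ω, ENNReal.ofReal (gsq (u (l ^ 2 * t)) y) := by
    intro t
    rw [mul_assoc, ← setLIntegral_aff hl x₀ Ω (fun y => ENNReal.ofReal (gsq (u (l ^ 2 * t)) y)),
      ← lintegral_const_mul' _ _ ENNReal.ofReal_ne_top]
    refine lintegral_congr fun x => ?_
    rw [gsq_su, ENNReal.ofReal_mul (by positivity)]
  simp_rw [e1]
  rw [lintegral_const_mul' _ _ (ENNReal.mul_ne_top ENNReal.ofReal_ne_top ENNReal.ofReal_ne_top)]
  refine ENNReal.mul_ne_top (ENNReal.mul_ne_top ENNReal.ofReal_ne_top ENNReal.ofReal_ne_top) ?_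
  have hemb : MeasurableEmbedding (fun t : ℝ => l ^ 2 * t) :=
    (Homeomorph.mulLeft₀ (l ^ 2) hl2.ne').measurableEmbedding
  have hpre : Ioo 0 (T / l ^ 2) = (fun t : ℝ => l ^ 2 * t) ⁻¹' Ioo 0 T := by
    ext t
    simp only [mem_Ioo, mem_preimage]
    rw [lt_div_iff₀ hl2, mul_comm t]
    constructor
    · rintro ⟨h1, h2⟩
      exact ⟨mul_pos hl2 h1, h2⟩
    · rintro ⟨h1, h2⟩
      exact ⟨pos_of_mul_pos_right h1 hl2.le, h2⟩
  have hmap := Real.map_volume_mul_left hl2.ne'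
  have hr := hemb.restrict_map volume (Ioo 0 T)
  rw [hpre, ← hemb.lintegral_map (fun t => ∫⁻ y in Ω, ENNReal.ofReal (gsq (u t) y)), ← hr, hmap,
    Measure.restrict_smul, lintegral_smul_measure, smul_eq_mul]
  exact ENNReal.mul_ne_top ENNReal.ofReal_ne_top h

end Run7.h21.LS
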