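import Pool.Agent.Run7.h21.LS.Aff

/-! E1: from one ball to compact sets. -/

set_option autoImplicit false

open MeasureTheory Set Metric Filter Topology
open scoped ContDiff ENNReal

namespace Run7.h21.LS

open H459R3.NS W221.NS Run7.h219.LS

/-- The bound in a ball, from the normalised one. -/
theorem ball_bound {C c : ℝ}
    (H : ∀ (T E : ℝ) (Ω : Set V) (u : ℝ → V → V) (p : ℝ → V → ℝ), 0 < T → 0 ≤ E →
      OSol 1 T E Ω u p → closedBall cc (1 / 4) ⊆ Ω →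
      ∫⁻ t in Ioo 0 T, ∫⁻ y in Ω, ENNReal.ofReal (gsq (u t) y) ≠ ⊤ →
      ∃ r₀ : ℝ, 0 < r₀ ∧ r₀ ^ 2 ≤ T ∧ ∀ r : ℝ, 0 < r → r < r₀ → ∀ S : Finset V,
        (∀ x ∈ S, x ∈ closedBall cc (1 / 8) ∧ Sing T u x) →
        (∀ x ∈ S, ∀ y ∈ S, x ≠ y → r ≤ ‖x - y‖) →
          S.card * r ≤ C * ∫ x in {x ∈ ball cc (1 / 4) | c ^ 2 < r ^ 2 * nsq (u (T - r ^ 2)) x},
            nsq (u (T - r ^ 2)) x)
    {T E : ℝ} {Ω : Set V} {u : ℝ → V → V} {p : ℝ → V → ℝ} (hT : 0 < T) (hE : 0 ≤ E)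
    (h : OSol 1 T E Ω u p) (hd : ∫⁻ t in Ioo 0 T, ∫⁻ y in Ω, ENNReal.ofReal (gsq (u t) y) ≠ ⊤)
    {l : ℝ} (hl : 0 < l) (x₀ : V) (hb : closedBall x₀ (l / 4) ⊆ Ω) :
    ∃ r₀ : ℝ, 0 < r₀ ∧ ∀ r : ℝ, 0 < r → r < r₀ → ∀ S : Finset V,
      (∀ x ∈ S, x ∈ closedBall x₀ (l / 8) ∧ Sing T u x) →
      (∀ x ∈ S, ∀ y ∈ S, x ≠ y → r ≤ ‖x - y‖) →
        S.card * r ≤ C * ∫ x in {x ∈ ball x₀ (l / 4) | c ^ 2 < r ^ 2 * nsq (u (T - r ^ 2)) x},
          nsq (u (T - r ^ 2)) x := by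
  classical
  have hl2 : 0 < l ^ 2 := by positivity
  obtain ⟨r₁, hr₁, -, K⟩ := H (T / l ^ 2) (E / √l) (aff l x₀ ⁻¹' Ω) (su l x₀ u) (sp l x₀ p)
    (by positivity) (by positivity) (osol_aff h hl x₀)
    (fun x hx => hb (by
      rw [mem_closedBall, dist_eq_norm] at hx ⊢
      rw [norm_aff_cc hl]
      nlinarith))
    (diss_aff hl x₀ hd)
  refine ⟨l * r₁, by positivity, fun r hr hrr S hS hsep => ?_⟩
  have hrl : r / l < r₁ := by
    rw [div_lt_iff₀ hl]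
    linarith
  have hinj : Function.Injective (ffa l x₀) := (affH hl.ne' x₀).symm.injective
  have hdist : ∀ x y : V, ‖ffa l x₀ x - ffa l x₀ y‖ = ‖x - y‖ / l := by
    intro x y
    have h1 := norm_aff_sub hl x₀ (ffa l x₀ x) (ffa l x₀ y)
    rw [aff_ffa hl.ne', aff_ffa hl.ne'] at h1
    rw [h1]
    field_simp
  have key := K (r / l) (by positivity) hrl (S.image (ffa l x₀)) (by
      intro x hx
      obtain ⟨y, hy, rfl⟩ := Finset.mem_image.1 hx
      obtain ⟨h1, h2⟩ := hS y hy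
      refine ⟨?_, sing_aff hl x₀ h2⟩
      rw [mem_closedBall, dist_eq_norm] at h1 ⊢
      have h3 := norm_aff_cc hl x₀ (ffa l x₀ y)
      rw [aff_ffa hl.ne'] at h3
      have h4 : l * ‖ffa l x₀ y - cc‖ ≤ l * (1 / 8) := by
        rw [← h3]
        linarith
      exact le_of_mul_le_mul_left h4 hl) (by
      intro x hx y hy hxy
      obtain ⟨x', hx', rfl⟩ := Finset.mem_image.1 hx
      obtain ⟨y', hy', rfl⟩ := Finset.mem_image.1 hy
      rw [hdist]
      have := hsep x' hx' y' hy' fun e => hxy (by rw [e])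
      gcongr)
  rw [Finset.card_image_of_injective _ hinj] at key
  have et : l ^ 2 * (T / l ^ 2 - (r / l) ^ 2) = T - r ^ 2 := by
    field_simp
  have e1 : ∀ x, nsq (su l x₀ u (T / l ^ 2 - (r / l) ^ 2)) x
      = l ^ 2 * nsq (u (T - r ^ 2)) (aff l x₀ x) := by
    intro x
    rw [nsq_su, et]
  simp_rw [e1] at key
  have e2 : {x | x ∈ ball cc (1 / 4) ∧
      c ^ 2 < (r / l) ^ 2 * (l ^ 2 * nsq (u (T - r ^ 2)) (aff l x₀ x))}
      = aff l x₀ ⁻¹' {x ∈ ball x₀ (l / 4) | c ^ 2 < r ^ 2 * nsq (u (T - r ^ 2)) x} := by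
    ext x
    simp only [mem_ofPred_eq, mem_preimage]
    refine and_congr ?_ ?_
    · rw [mem_ball, mem_ball, dist_eq_norm, dist_eq_norm, norm_aff_cc hl]
      constructor
      · intro h1
        nlinarith
      · intro h1
        have h2 : l * ‖x - cc‖ < l * (1 / 4) := by linarith
        exact lt_of_mul_lt_mul_left h2 hl.le
    · have e3 : (r / l) ^ 2 * (l ^ 2 * nsq (u (T - r ^ 2)) (aff l x₀ x))
          = r ^ 2 * nsq (u (T - r ^ 2)) (aff l x₀ x) := by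
        field_simp
      rw [e3]
  rw [e2, integral_const_mul, setIntegral_aff hl x₀ _ (nsq (u (T - r ^ 2)))] at key
  have h5 := mul_le_mul_of_nonneg_left key hl.le
  calc (S.card : ℝ) * r = l * (S.card * (r / l)) := by field_simp
    _ ≤ _ := h5
    _ = _ := by field_simp

/-- The centres of the grid. -/
noncomputable def gc (ρ : ℝ) (k : Fin 3 → ℤ) : V := fun i => 2 * ρ * k i

lemma mem_cell {ρ : ℝ} (hρ : 0 < ρ) (x : V) :
    x ∈ closedBall (gc ρ fun i => round (x i / (2 * ρ))) ρ := by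
  rw [mem_closedBall, dist_eq_norm, pi_norm_le_iff_of_nonneg hρ.le]
  intro i
  have h1 := abs_sub_round (x i / (2 * ρ))
  have h2 : (x - gc ρ fun i => round (x i / (2 * ρ))) i
      = 2 * ρ * (x i / (2 * ρ) - round (x i / (2 * ρ))) := by
    show x i - 2 * ρ * _ = _
    field_simp
  rw [h2, Real.norm_eq_abs, abs_mul, abs_of_pos (by positivity : 0 < 2 * ρ)]
  nlinarith

open Classical in
/-- The doubled cells overlap at most eight times. -/
lemma overlap {ρ : ℝ} (hρ : 0 < ρ) (F : Finset (Fin 3 → ℤ)) (x : V) :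
    (F.filter fun k => x ∈ ball (gc ρ k) (2 * ρ)).card ≤ 8 := by
  classical
  have h2ρ : 0 < 2 * ρ := by positivity
  have hsub : (F.filter fun k => x ∈ ball (gc ρ k) (2 * ρ)) ⊆
      Fintype.piFinset fun i => Finset.Icc ⌊x i / (2 * ρ)⌋ (⌊x i / (2 * ρ)⌋ + 1) := by
    intro k hk
    rw [Fintype.mem_piFinset]
    intro i
    have h1 := (Finset.mem_filter.1 hk).2
    rw [mem_ball, dist_eq_norm] at h1
    have h2 : |x i - 2 * ρ * k i| < 2 * ρ :=
      (norm_le_pi_norm (x - gc ρ k) i).trans_lt h1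
    rw [abs_lt] at h2
    have h3 : x i / (2 * ρ) - 1 < k i := by
      rw [sub_lt_iff_lt_add, div_lt_iff₀ h2ρ]
      nlinarith
    have h4 : (k i : ℝ) < x i / (2 * ρ) + 1 := by
      rw [← sub_lt_iff_lt_add, lt_div_iff₀ h2ρ]
      nlinarith
    have h5 := Int.floor_le (x i / (2 * ρ))
    have h6 := Int.lt_floor_add_one (x i / (2 * ρ))
    rw [Finset.mem_Icc]
    constructor
    · have h7 : (⌊x i / (2 * ρ)⌋ : ℝ) < k i + 1 := by linarith
      exact_mod_cast Int.lt_add_one_iff.1 (by exact_mod_cast h7)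
    · have h7 : (k i : ℝ) < ⌊x i / (2 * ρ)⌋ + 1 + 1 := by linarith
      exact Int.lt_add_one_iff.1 (by exact_mod_cast h7)
  refine (Finset.card_le_card hsub).trans ?_
  rw [Fintype.card_piFinset]
  have h2 : ∀ i : Fin 3, (Finset.Icc ⌊x i / (2 * ρ)⌋ (⌊x i / (2 * ρ)⌋ + 1)).card = 2 := by
    intro i
    rw [Int.card_Icc]
    have : ⌊x i / (2 * ρ)⌋ + 1 + 1 - ⌊x i / (2 * ρ)⌋ = 2 := by ring
    rw [this]
    rfl
  rw [Finset.prod_congr rfl fun i _ => h2 i]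
  norm_num

theorem t_KW (h : S_NORM) : S_KW := by
  classical
  obtain ⟨C, c, hC, hc, H⟩ := h
  refine ⟨8 * C, c, by positivity, hc, ?_⟩
  intro T E Ω u p hT hE hsol hd Q W hQ hW hQW hWO
  obtain ⟨δ, hδ, hδW⟩ := hQ.exists_cthickening_subset_open hW hQW
  obtain ⟨ρ, hρd⟩ : ∃ ρ, ρ = δ / 3 := ⟨_, rfl⟩
  have hρ : 0 < ρ := by rw [hρd]; positivity
  -- the cells
  obtain ⟨R, hR⟩ := hQ.isBounded.subset_closedBall (0 : V)
  have hfin : {k : Fin 3 → ℤ | (closedBall (gc ρ k) ρ ∩ Q).Nonempty}.Finite := by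
    obtain ⟨N, hN⟩ := exists_int_gt ((R + ρ) / (2 * ρ))
    refine (Set.finite_Icc (fun _ => -N) (fun _ => N)).subset ?_
    rintro k ⟨x, hx1, hx2⟩
    have h1 := hR hx2
    rw [mem_closedBall, dist_zero_right] at h1
    rw [mem_closedBall, dist_comm, dist_eq_norm] at hx1
    have h2 : ‖gc ρ k‖ ≤ R + ρ := by
      calc ‖gc ρ k‖ = ‖(gc ρ k - x) + x‖ := by rw [sub_add_cancel]
        _ ≤ ‖gc ρ k - x‖ + ‖x‖ := norm_add_le _ _
        _ ≤ R + ρ := by linarith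
    have h3 : ∀ i, |(k i : ℝ)| < N := by
      intro i
      have h4 : ‖gc ρ k i‖ ≤ R + ρ := (norm_le_pi_norm _ i).trans h2
      have h5 : ‖gc ρ k i‖ = 2 * ρ * |(k i : ℝ)| := by
        show ‖2 * ρ * (k i : ℝ)‖ = _
        rw [Real.norm_eq_abs, abs_mul, abs_of_pos (by positivity : 0 < 2 * ρ)]
      rw [h5] at h4
      rw [div_lt_iff₀ (by positivity)] at hN
      have h6 : 2 * ρ * |(k i : ℝ)| < 2 * ρ * N := by linarith
      exact lt_of_mul_lt_mul_left h6 (by positivity)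
    constructor
    · intro i
      have := (abs_lt.1 (h3 i)).1
      have h7 : (-N : ℤ) < k i := by exact_mod_cast this
      exact h7.le
    · intro i
      have := (abs_lt.1 (h3 i)).2
      have h7 : k i < (N : ℤ) := by exact_mod_cast this
      exact h7.le
  obtain ⟨F, hF⟩ : ∃ F : Finset (Fin 3 → ℤ), ∀ k, k ∈ F ↔ (closedBall (gc ρ k) ρ ∩ Q).Nonempty :=
    ⟨hfin.toFinset, fun k => by rw [Set.Finite.mem_toFinset]; rfl⟩
  have hball : ∀ k ∈ F, closedBall (gc ρ k) (2 * ρ) ⊆ W := by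
    intro k hk y hy
    obtain ⟨x, hx1, hx2⟩ := (hF k).1 hk
    refine hδW ?_
    refine mem_cthickening_of_dist_le y x δ Q hx2 ?_
    rw [mem_closedBall] at hx1 hy
    calc dist y x ≤ dist y (gc ρ k) + dist x (gc ρ k) := dist_triangle_right _ _ _
      _ ≤ 2 * ρ + ρ := add_le_add hy hx1
      _ = δ := by rw [hρd]; ring
  have hcell : ∀ k : Fin 3 → ℤ, ∃ r₀ : ℝ, 0 < r₀ ∧ (k ∈ F → ∀ r : ℝ, 0 < r → r < r₀ →
      ∀ S : Finset V, (∀ x ∈ S, x ∈ closedBall (gc ρ k) ρ ∧ Sing T u x) →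
      (∀ x ∈ S, ∀ y ∈ S, x ≠ y → r ≤ ‖x - y‖) →
        S.card * r ≤ C * ∫ x in {x ∈ ball (gc ρ k) (2 * ρ) | c ^ 2 < r ^ 2 * nsq (u (T - r ^ 2)) x},
          nsq (u (T - r ^ 2)) x) := by
    intro k
    by_cases hk : k ∈ F
    · have h8 : (8 * ρ) / 4 = 2 * ρ := by ring
      have h9 : (8 * ρ) / 8 = ρ := by ring
      have h1 := ball_bound H hT hE hsol hd (l := 8 * ρ) (by positivity) (gc ρ k)
        (by rw [h8]; exact (hball k hk).trans hWO)
      rw [h8, h9] at h1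
      obtain ⟨r₀, hr₀, h2⟩ := h1
      exact ⟨r₀, hr₀, fun _ => h2⟩
    · exact ⟨1, one_pos, fun h => absurd h hk⟩
  choose rk hrk hcell using hcell
  have hTs : 0 < √T := Real.sqrt_pos.2 hT
  obtain ⟨r₀, hr₀, hr₀T, hr₀k⟩ : ∃ r₀ : ℝ, 0 < r₀ ∧ r₀ ≤ √T ∧ ∀ k ∈ F, r₀ ≤ rk k := by
    have h1 : ∀ᶠ r in 𝓝[>] (0 : ℝ), ∀ k ∈ F, r ≤ rk k := by
      rw [Finset.eventually_all]
      intro k _
      filter_upwards [Ioo_mem_nhdsGT (hrk k)] with r hr
      exact hr.2.le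
    have h2 : ∀ᶠ r in 𝓝[>] (0 : ℝ), r ∈ Ioo 0 (√T) := Ioo_mem_nhdsGT hTs
    obtain ⟨r, h3, h4⟩ := (h1.and h2).exists
    exact ⟨r, h4.1, h4.2.le, h3⟩
  have hr₀2 : r₀ ^ 2 ≤ T := by
    calc r₀ ^ 2 ≤ √T ^ 2 := by gcongr
      _ = T := Real.sq_sqrt hT.le
  refine ⟨r₀, hr₀, hr₀2, fun r hr hrr S hS hsep => ?_⟩
  have hrT : r ^ 2 < T := lt_of_lt_of_le (by gcongr) hr₀2
  obtain ⟨f, hf⟩ : ∃ f, f = nsq (u (T - r ^ 2)) := ⟨_, rfl⟩
  have hf0 : ∀ x, 0 ≤ f x := fun x => by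
    rw [hf]
    exact Finset.sum_nonneg fun i _ => sq_nonneg _
  have hfi : IntegrableOn f Ω := by
    rw [hf]
    refine hsol.en_int _ ⟨by linarith, ?_⟩
    have : 0 < r ^ 2 := by positivity
    linarith
  obtain ⟨s, hs⟩ : ∃ s, s = {x ∈ W | c ^ 2 < r ^ 2 * f x} := ⟨_, rfl⟩
  have hfs : IntegrableOn f s := hfi.mono_set (by rw [hs]; exact fun x hx => hWO hx.1)
  rw [← hf, ← hs]
  -- the parts of `S`
  have hcard : (S.card : ℝ) ≤ ∑ k ∈ F, ((S.filter fun x => x ∈ closedBall (gc ρ k) ρ).card : ℝ) := by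
    have h1 : S ⊆ F.biUnion fun k => S.filter fun x => x ∈ closedBall (gc ρ k) ρ := by
      intro x hx
      rw [Finset.mem_biUnion]
      refine ⟨_, (hF _).2 ⟨x, mem_cell hρ x, (hS x hx).1⟩, ?_⟩
      exact Finset.mem_filter.2 ⟨hx, mem_cell hρ x⟩
    have h2 := (Finset.card_le_card h1).trans Finset.card_biUnion_le
    exact_mod_cast h2
  have hk : ∀ k ∈ F, ((S.filter fun x => x ∈ closedBall (gc ρ k) ρ).card : ℝ) * r
      ≤ C * ∫ x in s, (ball (gc ρ k) (2 * ρ)).indicator f x := by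
    intro k hk
    have h1 := hcell k hk r hr (hrr.trans_le (hr₀k k hk))
      (S.filter fun x => x ∈ closedBall (gc ρ k) ρ)
      (fun x hx => ⟨(Finset.mem_filter.1 hx).2, (hS x (Finset.mem_filter.1 hx).1).2⟩)
      (fun x hx y hy hxy => hsep x (Finset.mem_filter.1 hx).1 y (Finset.mem_filter.1 hy).1 hxy)
    rw [← hf] at h1
    refine h1.trans (le_of_eq ?_)
    rw [setIntegral_indicator measurableSet_ball]
    congr 3
    ext x
    rw [hs]
    simp only [mem_ofPred_eq, mem_inter_iff]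
    constructor
    · rintro ⟨h2, h3⟩
      exact ⟨⟨hball k hk (ball_subset_closedBall h2), h3⟩, h2⟩
    · rintro ⟨⟨-, h3⟩, h2⟩
      exact ⟨h2, h3⟩
  calc (S.card : ℝ) * r
      ≤ (∑ k ∈ F, ((S.filter fun x => x ∈ closedBall (gc ρ k) ρ).card : ℝ)) * r := by gcongr
    _ = ∑ k ∈ F, ((S.filter fun x => x ∈ closedBall (gc ρ k) ρ).card : ℝ) * r := by
        rw [Finset.sum_mul]
    _ ≤ ∑ k ∈ F, C * ∫ x in s, (ball (gc ρ k) (2 * ρ)).indicator f x := Finset.sum_le_sum hk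
    _ = C * ∫ x in s, ∑ k ∈ F, (ball (gc ρ k) (2 * ρ)).indicator f x := by
        rw [← Finset.mul_sum, integral_finsetSum]
        intro k _
        exact hfs.indicator measurableSet_ball
    _ ≤ C * ∫ x in s, 8 * f x := by
        refine mul_le_mul_of_nonneg_left ?_ hC.le
        refine integral_mono (integrable_finsetSum _ fun k _ => hfs.indicator measurableSet_ball)
          (hfs.const_mul 8) fun x => ?_
        show ∑ k ∈ F, (ball (gc ρ k) (2 * ρ)).indicator f x ≤ 8 * f x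
        have h1 : ∑ k ∈ F, (ball (gc ρ k) (2 * ρ)).indicator f x
            = ((F.filter fun k => x ∈ ball (gc ρ k) (2 * ρ)).card : ℝ) * f x := by
          rw [← nsmul_eq_mul, ← Finset.sum_const, Finset.sum_filter]
          refine Finset.sum_congr rfl fun k _ => ?_
          rw [Set.indicator_apply]
        rw [h1]
        have h2 : ((F.filter fun k => x ∈ ball (gc ρ k) (2 * ρ)).card : ℝ) ≤ 8 := by
          exact_mod_cast overlap hρ F x
        exact mul_le_mul_of_nonneg_right h2 (hf0 x)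
    _ = 8 * C * ∫ x in s, f x := by
        rw [integral_const_mul]
        ring

end Run7.h21.LS
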