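import Pool.Agent.Run7.h21.LS.E2a

/-! E2: all viscosities; the weak norms, Hausdorff measure, finitely many points. -/

set_option autoImplicit false

open MeasureTheory Set Metric Filter Topology
open scoped ContDiff ENNReal NNReal

namespace Run7.h21.LS

open H459R3.NS W221.NS Run7.h219.LS

theorem t_FIN (h : S_KW) : S_FIN := by
  obtain ⟨C, c, hC, hc, H⟩ := h
  refine ⟨C, c, fun q => 2 * (C * (q / (q - 2)) * c ^ (2 - q)), hC, hc, fun q hq => ?_, ?_⟩
  · have : 0 < q - 2 := by linarith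
    positivity
  intro ν T E Ω u p hν hT hu hd Q W hQ hW hQW hWO
  obtain ⟨r₀, hr₀, hr₀T, H0⟩ := kwν hc H hν hT hu hd hQ hW hQW hWO
  have hsm : ∀ r : ℝ, 0 < r → r < r₀ → r ^ 2 < ν * T := fun r hr hrr =>
    lt_of_lt_of_le (by gcongr) hr₀T
  have hslice : ∀ r : ℝ, 0 < r → r < r₀ → T - r ^ 2 / ν ∈ Ioo 0 T := by
    intro r hr h1
    constructor
    · rw [sub_pos, div_lt_iff₀ hν]
      linarith [hsm r hr h1]
    · have : 0 < r ^ 2 / ν := by positivity
      linarith
  have hcont : ∀ t ∈ Ioo 0 T, ContinuousOn (u t) W := by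
    intro t ht
    have h1 : ContinuousOn (fun x : V => ((t, x) : ℝ × V)) W := by fun_prop
    exact hu.smooth_u.continuousOn.comp h1 fun x hx => ⟨ht, hWO hx⟩
  have hint : ∀ t ∈ Ioo 0 T, IntegrableOn (nsq (u t)) W := fun t ht =>
    (hu.en_int t ht).mono_set hWO
  -- the bound with weak norms
  have hq1 : ∀ r : ℝ, 0 < r → r < r₀ →
      ∀ S : Finset V, (∀ x ∈ S, x ∈ Q ∧ Sing T u x) →
      (∀ x ∈ S, ∀ y ∈ S, x ≠ y → r ≤ ‖x - y‖) → ∀ q M : ℝ, 2 < q → 0 ≤ M →
        WeakW q M W (u (T - r ^ 2 / ν)) →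
          (S.card : ℝ) ≤ C * (q / (q - 2)) * c ^ (2 - q) * (M / ν) ^ q * r ^ (q - 3) := by
    intro r hr hrr S hS hsep q M hq hM hw
    have hq2 : 0 < q - 2 := by linarith
    have h1 := H0 r hr hrr S hS hsep
    have h2 := weakW_fast hq hM (l := c * ν / r) (by positivity) hW (hcont _ (hslice r hr hrr))
      (hint _ (hslice r hr hrr)) hw
    have h3 : (S.card : ℝ) * (ν ^ 2 * r)
        ≤ C * (q / (q - 2) * (M ^ q * (c * ν / r) ^ (2 - q))) :=
      h1.trans (mul_le_mul_of_nonneg_left h2 hC.le)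
    have e1 : (c * ν / r) ^ (2 - q) = c ^ (2 - q) * ν ^ (2 - q) * r ^ (q - 2) := by
      rw [Real.div_rpow (by positivity) hr.le, Real.mul_rpow hc.le hν.le, div_eq_mul_inv,
        ← Real.rpow_neg hr.le]
      congr 2
      ring
    have e2 : ν ^ (2 - q) = ν ^ 2 * (ν ^ q)⁻¹ := by
      rw [sub_eq_add_neg, Real.rpow_add hν, Real.rpow_two, Real.rpow_neg hν.le]
    have e3 : r ^ (q - 2) = r ^ (q - 3) * r := by
      have : q - 2 = (q - 3) + 1 := by ring
      rw [this, Real.rpow_add hr, Real.rpow_one]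
    rw [Real.div_rpow hM hν.le]
    have hνr : 0 < ν ^ 2 * r := by positivity
    refine le_of_mul_le_mul_right (h3.trans (le_of_eq ?_)) hνr
    rw [e1, e2, e3]
    field_simp
  -- good radii
  have hgood : ∀ q M ρ : ℝ, 0 < ρ → (∃ᶠ t in 𝓝[<] T, WeakW q M W (u t)) →
      ∃ r : ℝ, 0 < r ∧ r < r₀ ∧ r < ρ ∧ WeakW q M W (u (T - r ^ 2 / ν)) := by
    intro q M ρ hρ hfr
    have hm : 0 < min r₀ ρ := lt_min hr₀ hρ
    have h1 : ∀ᶠ t in 𝓝[<] T, t ∈ Ioo (T - (min r₀ ρ) ^ 2 / ν) T :=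
      Ioo_mem_nhdsLT (by
        have : 0 < (min r₀ ρ) ^ 2 / ν := by positivity
        linarith)
    obtain ⟨t, ht, ht1, ht2⟩ := (hfr.and_eventually h1).exists
    have h2 : 0 < ν * (T - t) := mul_pos hν (by linarith)
    have h3 : √(ν * (T - t)) < min r₀ ρ := by
      rw [Real.sqrt_lt' hm]
      have h4 : T - t < (min r₀ ρ) ^ 2 / ν := by linarith
      rw [lt_div_iff₀ hν] at h4
      linarith
    refine ⟨√(ν * (T - t)), Real.sqrt_pos.2 h2, h3.trans_le (min_le_left _ _),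
      h3.trans_le (min_le_right _ _), ?_⟩
    have e : T - √(ν * (T - t)) ^ 2 / ν = t := by
      rw [Real.sq_sqrt h2.le]
      field_simp
      ring
    rw [e]
    exact ht
  refine ⟨⟨r₀, hr₀, hr₀T, fun r hr hrr S hS hsep => ⟨H0 r hr hrr S hS hsep,
    fun q M hq hM hw => ?_⟩⟩, fun q M hq hq3 hM hfr => ?_, fun M hM hfr => ?_⟩
  · have h1 := hq1 r hr hrr S hS hsep q M hq hM hw
    have h2 : 0 ≤ C * (q / (q - 2)) * c ^ (2 - q) * (M / ν) ^ q * r ^ (q - 3) := by
      have : 0 < q - 2 := by linarith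
      positivity
    calc (S.card : ℝ) ≤ 2 * (C * (q / (q - 2)) * c ^ (2 - q) * (M / ν) ^ q * r ^ (q - 3)) := by linarith
      _ = _ := by ring
  · -- the Hausdorff measure
    have hq2 : 0 < q - 2 := by linarith
    obtain ⟨N, hN⟩ : ∃ N, N = C * (q / (q - 2)) * c ^ (2 - q) * (M / ν) ^ q := ⟨_, rfl⟩
    have hN0 : 0 ≤ N := by rw [hN]; positivity
    have hstep : ∀ n : ℕ, ∃ r : ℝ, 0 < r ∧ r < 1 / ((n : ℝ) + 1) ∧ ∃ F : Finset V,
        (F.card : ℝ) ≤ N * r ^ (q - 3) ∧ ∀ x ∈ {x ∈ Q | Sing T u x}, ∃ y ∈ F, ‖x - y‖ < r := by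
      intro n
      obtain ⟨r, hr, hrr, hrn, hw⟩ := hgood q M (1 / ((n : ℝ) + 1)) (by positivity) hfr
      obtain ⟨F, hF1, -, hF3⟩ := cover_sep (Z := {x ∈ Q | Sing T u x}) hr
        (fun S hS hsep => hq1 r hr hrr S hS hsep q M hq hM hw)
      exact ⟨r, hr, hrn, F, by rw [hN]; exact hF1, hF3⟩
    choose r hr hrn F hF1 hF2 using hstep
    have hlim : Tendsto (fun n => ENNReal.ofReal (2 * r n)) atTop (𝓝 0) := by
      have h1 : Tendsto (fun n : ℕ => 2 * (1 / ((n : ℝ) + 1))) atTop (𝓝 (2 * 0)) :=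
        tendsto_one_div_add_atTop_nhds_zero_nat.const_mul 2
      rw [mul_zero] at h1
      have h2 : Tendsto (fun n => 2 * r n) atTop (𝓝 0) :=
        squeeze_zero (fun n => by have := hr n; positivity)
          (fun n => by have := (hrn n).le; linarith) h1
      have h3 := ENNReal.tendsto_ofReal h2
      rwa [ENNReal.ofReal_zero] at h3
    have hdiam : ∀ n (y : V), Metric.ediam (Metric.ball y (r n)) ≤ ENNReal.ofReal (2 * r n) := by
      intro n y
      refine Metric.ediam_le fun a ha b hb => ?_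
      rw [edist_dist]
      apply ENNReal.ofReal_le_ofReal
      rw [Metric.mem_ball] at ha hb
      have := dist_triangle_right a b y
      linarith
    have key := Measure.hausdorffMeasure_le_liminf_sum (ι := fun n => {y // y ∈ F n}) (3 - q)
      {x ∈ Q | Sing T u x} (l := atTop) (fun n => ENNReal.ofReal (2 * r n)) hlim
      (fun n y => Metric.ball (y : V) (r n)) (Eventually.of_forall fun n y => hdiam n y)
      (Eventually.of_forall fun n x hx => by
        obtain ⟨y, hy, hxy⟩ := hF2 n x hx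
        exact mem_iUnion.2 ⟨⟨y, hy⟩, by rw [Metric.mem_ball, dist_eq_norm]; exact hxy⟩)
    refine key.trans ?_
    have hsum : ∀ n, ∑ y : {y // y ∈ F n}, Metric.ediam (Metric.ball (y : V) (r n)) ^ (3 - q)
        ≤ ENNReal.ofReal (2 * N) := by
      intro n
      have h1 : ∀ y : V, Metric.ediam (Metric.ball y (r n)) ^ (3 - q)
          ≤ ENNReal.ofReal ((2 * r n) ^ (3 - q)) := by
        intro y
        rw [← ENNReal.ofReal_rpow_of_nonneg (by have := hr n; positivity) (by linarith)]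
        exact ENNReal.rpow_le_rpow (hdiam n y) (by linarith)
      refine (Finset.sum_le_sum fun (y : {y // y ∈ F n}) _ => h1 (y : V)).trans ?_
      rw [Finset.sum_const, Finset.card_univ, Fintype.card_coe, nsmul_eq_mul,
        ← ENNReal.ofReal_natCast, ← ENNReal.ofReal_mul (by positivity)]
      apply ENNReal.ofReal_le_ofReal
      have hrn0 := hr n
      have e1 : (2 * r n) ^ (3 - q) = (2 : ℝ) ^ (3 - q) * r n ^ (3 - q) :=
        Real.mul_rpow (by norm_num) hrn0.le
      have e2 : r n ^ (q - 3) * r n ^ (3 - q) = 1 := by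
        rw [← Real.rpow_add hrn0]
        simp
      have e3 : (2 : ℝ) ^ (3 - q) ≤ 2 := by
        calc (2 : ℝ) ^ (3 - q) ≤ (2 : ℝ) ^ (1 : ℝ) :=
              Real.rpow_le_rpow_of_exponent_le (by norm_num) (by linarith)
          _ = 2 := Real.rpow_one 2
      calc ((F n).card : ℝ) * (2 * r n) ^ (3 - q) ≤ (N * r n ^ (q - 3)) * (2 * r n) ^ (3 - q) :=
            mul_le_mul_of_nonneg_right (hF1 n) (by positivity)
        _ = N * 2 ^ (3 - q) * (r n ^ (q - 3) * r n ^ (3 - q)) := by rw [e1]; ring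
        _ ≤ N * 2 * 1 := by
            rw [e2]
            gcongr
        _ = 2 * N := by ring
    refine (liminf_le_liminf (Eventually.of_forall hsum)).trans ?_
    rw [liminf_const]
    apply ENNReal.ofReal_le_ofReal
    rw [hN]
    exact le_of_eq (by ring)
  · -- finitely many points
    obtain ⟨N, hN⟩ : ∃ N, N = C * ((3 : ℝ) / (3 - 2)) * c ^ (2 - (3 : ℝ)) * (M / ν) ^ (3 : ℝ) := ⟨_, rfl⟩
    have hN0 : 0 ≤ N := by rw [hN]; positivity
    have hcard : ∀ S : Finset V, (∀ x ∈ S, x ∈ Q ∧ Sing T u x) → (S.card : ℝ) ≤ N := by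
      intro S hS
      -- the least distance
      obtain ⟨ρ, hρ, hsep⟩ : ∃ ρ : ℝ, 0 < ρ ∧ ∀ x ∈ S, ∀ y ∈ S, x ≠ y → ρ ≤ ‖x - y‖ := by
        have h1 : ∀ᶠ ρ in 𝓝[>] (0 : ℝ), ∀ x ∈ S, ∀ y ∈ S, x ≠ y → ρ ≤ ‖x - y‖ := by
          rw [Finset.eventually_all]
          intro x hx
          rw [Finset.eventually_all]
          intro y hy
          by_cases hxy : x = y
          · exact Eventually.of_forall fun _ h => absurd hxy h
          · have h2 : 0 < ‖x - y‖ := norm_pos_iff.2 (sub_ne_zero.2 hxy)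
            filter_upwards [Ioo_mem_nhdsGT h2] with ρ hρ _
            exact hρ.2.le
        obtain ⟨ρ, h2, h3⟩ := (h1.and (self_mem_nhdsWithin : Ioi (0 : ℝ) ∈ 𝓝[>] 0)).exists
        exact ⟨ρ, h3, h2⟩
      obtain ⟨r, hr, hrr, hrρ, hw⟩ := hgood 3 M ρ hρ hfr
      have h1 := hq1 r hr hrr S hS (fun x hx y hy hxy => hrρ.le.trans (hsep x hx y hy hxy)) 3 M
        (by norm_num) hM hw
      rw [sub_self, Real.rpow_zero, mul_one] at h1
      rw [hN]
      exact h1
    have hfin : {x ∈ Q | Sing T u x}.Finite := by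
      by_contra hinf
      obtain ⟨S, hS1, hS2⟩ := (Set.Infinite.exists_subset_card_eq hinf (⌊N⌋₊ + 1))
      have h1 := hcard S fun x hx => hS1 hx
      rw [hS2] at h1
      have h2 := Nat.lt_floor_add_one N
      push_cast at h1
      linarith
    refine ⟨hfin, ?_⟩
    rw [Set.ncard_eq_toFinset_card _ hfin]
    have h1 := hcard hfin.toFinset fun x hx => by
      rw [Set.Finite.mem_toFinset] at hx
      exact hx
    refine h1.trans ?_
    rw [hN]
    have e : (M / ν) ^ (3 : ℝ) = (M / ν) ^ (3 : ℕ) := by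
      rw [← Real.rpow_natCast]
      norm_num
    rw [e]
    have hdbl : ∀ a b : ℝ, 0 ≤ a * b → a * b ≤ 2 * a * b := fun a b hab => by linarith
    refine hdbl _ _ ?_
    positivity

end Run7.h21.LS
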