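import Pool.Agent.Run7.h219.LS.Stm
import Pool.Agent.W22.MF.OSC
import Pool.Agent.W221.NS.Fin

/-! E2: all viscosities; the weak norms. -/

set_option autoImplicit false

open MeasureTheory Set Metric Filter Topology
open scoped ContDiff ENNReal NNReal

namespace Run7.h21.LS

open H459R3.NS W221.NS Run7.h219.LS

lemma nsq_nonneg' (v : V → V) (x : V) : 0 ≤ nsq v x :=
  Finset.sum_nonneg fun _ _ => sq_nonneg _

lemma nsq_contOn {v : V → V} {W : Set V} (hv : ContinuousOn v W) : ContinuousOn (nsq v) W := by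
  unfold nsq
  refine continuousOn_finsetSum _ fun i _ => ?_
  exact ((continuous_apply i).comp_continuousOn hv).pow 2

lemma fastW_open {v : V → V} {W : Set V} (hW : IsOpen W) (hv : ContinuousOn v W) (l : ℝ) :
    IsOpen (fastW l W v) := by
  have h1 : ContinuousOn (fun x => √(nsq v x)) W := (nsq_contOn hv).sqrt
  exact h1.isOpen_inter_preimage hW isOpen_Ioi

/-- The energy of the fast fluid and the weak norm. -/
lemma weakW_fast {q M l : ℝ} (hq : 2 < q) (hM : 0 ≤ M) (hl : 0 < l) {v : V → V} {W : Set V}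
    (hW : IsOpen W) (hv : ContinuousOn v W) (hi : IntegrableOn (nsq v) W)
    (hw : WeakW q M W v) :
    ∫ x in fastW l W v, nsq v x ≤ q / (q - 2) * (M ^ q * l ^ (2 - q)) := by
  have hq2 : 0 < q - 2 := by linarith
  have hm : MeasurableSet (fastW l W v) := (fastW_open hW hv l).measurableSet
  have hsub : fastW l W v ⊆ W := fun x hx => hx.1
  obtain ⟨s, hs⟩ : ∃ s : V → ℝ, s = fun x => √(nsq v x) := ⟨_, rfl⟩
  have hsc : ContinuousOn s W := by rw [hs]; exact (nsq_contOn hv).sqrt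
  have hs0 : ∀ x, 0 ≤ s x := fun x => by rw [hs]; exact Real.sqrt_nonneg _
  have hs2 : ∀ x, s x ^ (2 : ℝ) = nsq v x := fun x => by
    rw [hs]
    rw [Real.rpow_two]
    exact Real.sq_sqrt (nsq_nonneg' v x)
  obtain ⟨μ, hμ⟩ : ∃ μ : Measure V, μ = volume.restrict (fastW l W v) := ⟨_, rfl⟩
  have hsm : AEMeasurable s μ := by
    rw [hμ]
    exact (hsc.mono hsub).aemeasurable hm
  have hlay := lintegral_rpow_eq_lintegral_meas_lt_mul μ (f := s) (ae_of_all _ hs0)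
    hsm (p := 2) two_pos
  simp_rw [hs2] at hlay
  have hMl : ∀ t : ℝ, 0 < t → (M / t) ^ q = M ^ q * t ^ (-q) := by
    intro t ht
    rw [Real.div_rpow hM ht.le, Real.rpow_neg ht.le]
    rfl
  -- the two parts
  have p1 : ∀ t ∈ Ioc 0 l, μ {a | t < s a} * ENNReal.ofReal (t ^ ((2 : ℝ) - 1))
      ≤ ENNReal.ofReal (M ^ q * l ^ (-q) * t) := by
    intro t ht
    have h1 : μ {a | t < s a} ≤ ENNReal.ofReal (M ^ q * l ^ (-q)) := by
      rw [← hMl l hl]
      refine le_trans ?_ (hw l hl)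
      rw [hμ]
      refine (measure_mono (subset_univ _)).trans ?_
      rw [Measure.restrict_apply_univ]
    have h2 : t ^ ((2 : ℝ) - 1) = t := by norm_num
    rw [h2, ENNReal.ofReal_mul (by positivity)]
    gcongr
  have p2 : ∀ t ∈ Ioi l, μ {a | t < s a} * ENNReal.ofReal (t ^ ((2 : ℝ) - 1))
      ≤ ENNReal.ofReal (M ^ q * t ^ (1 - q)) := by
    intro t ht
    have ht0 : 0 < t := hl.trans ht
    have h1 : μ {a | t < s a} ≤ ENNReal.ofReal (M ^ q * t ^ (-q)) := by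
      rw [← hMl t ht0]
      refine le_trans ?_ (hw t ht0)
      rw [hμ, Measure.restrict_apply' hm]
      refine measure_mono fun x hx => ?_
      have h3 : t < s x := hx.1
      rw [hs] at h3
      exact ⟨hx.2.1, h3⟩
    have h2 : t ^ ((2 : ℝ) - 1) = t := by norm_num
    rw [h2]
    calc μ {a | t < s a} * ENNReal.ofReal t ≤ ENNReal.ofReal (M ^ q * t ^ (-q)) * ENNReal.ofReal t := by
          gcongr
      _ = ENNReal.ofReal (M ^ q * t ^ (1 - q)) := by
          rw [← ENNReal.ofReal_mul (by positivity)]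
          congr 1
          rw [mul_assoc]
          congr 1
          rw [sub_eq_add_neg, add_comm, Real.rpow_add ht0, Real.rpow_one]
  have i1 : ∫⁻ t in Ioc 0 l, ENNReal.ofReal (M ^ q * l ^ (-q) * t)
      = ENNReal.ofReal (M ^ q * l ^ (2 - q) / 2) := by
    have hint : IntegrableOn (fun t : ℝ => M ^ q * l ^ (-q) * t) (Ioc 0 l) :=
      (by fun_prop : Continuous fun t : ℝ => M ^ q * l ^ (-q) * t).continuousOn.integrableOn_Icc.mono_set
        Ioc_subset_Icc_self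
    rw [← ofReal_integral_eq_lintegral_ofReal hint ((ae_restrict_iff' measurableSet_Ioc).2
      (ae_of_all _ fun t ht => by have := ht.1.le; show 0 ≤ M ^ q * l ^ (-q) * t; positivity))]
    congr 1
    rw [← intervalIntegral.integral_of_le hl.le, intervalIntegral.integral_const_mul, integral_id]
    have : l ^ (2 - q) = l ^ (-q) * l ^ 2 := by
      rw [sub_eq_add_neg, add_comm, Real.rpow_add hl, Real.rpow_two]
    rw [this]
    ring
  have i2 : ∫⁻ t in Ioi l, ENNReal.ofReal (M ^ q * t ^ (1 - q))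
      = ENNReal.ofReal (M ^ q * (l ^ (2 - q) / (q - 2))) := by
    have hint : IntegrableOn (fun t : ℝ => M ^ q * t ^ (1 - q)) (Ioi l) :=
      (integrableOn_Ioi_rpow_of_lt (by linarith) hl).const_mul _
    rw [← ofReal_integral_eq_lintegral_ofReal hint ((ae_restrict_iff' measurableSet_Ioi).2
      (ae_of_all _ fun t ht => by
        have : 0 < t := hl.trans ht
        show 0 ≤ M ^ q * t ^ (1 - q)
        positivity))]
    congr 1
    rw [integral_const_mul, integral_Ioi_rpow_of_lt (by linarith) hl]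
    congr 1
    have e1 : 1 - q + 1 = 2 - q := by ring
    rw [e1]
    rw [neg_div, ← div_neg]
    congr 1
    ring
  have hsplit : ∫⁻ t in Ioi (0 : ℝ), μ {a | t < s a} * ENNReal.ofReal (t ^ ((2 : ℝ) - 1))
      ≤ ENNReal.ofReal (M ^ q * l ^ (2 - q) / 2) + ENNReal.ofReal (M ^ q * (l ^ (2 - q) / (q - 2))) := by
    rw [← Ioc_union_Ioi_eq_Ioi hl.le]
    refine (lintegral_union_le _ _ _).trans (add_le_add ?_ ?_)
    · rw [← i1]
      exact setLIntegral_mono' measurableSet_Ioc p1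
    · rw [← i2]
      exact setLIntegral_mono' measurableSet_Ioi p2
  have hfin : ∫⁻ x, ENNReal.ofReal (nsq v x) ∂μ ≤ ENNReal.ofReal (q / (q - 2) * (M ^ q * l ^ (2 - q))) := by
    rw [hlay]
    refine (mul_le_mul_right hsplit _).trans (le_of_eq ?_)
    rw [← ENNReal.ofReal_add (by positivity) (by positivity), ← ENNReal.ofReal_mul two_pos.le]
    congr 1
    field_simp
    ring
  have hint : IntegrableOn (nsq v) (fastW l W v) := hi.mono_set hsub
  rw [hμ, ← ofReal_integral_eq_lintegral_ofReal hint (ae_of_all _ fun x => nsq_nonneg' v x),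
    ENNReal.ofReal_le_ofReal_iff (by positivity)] at hfin
  exact hfin

lemma gsq_smul' (c : ℝ) (v : V → V) (x : V) : gsq (fun y => c • v y) x = c ^ 2 * gsq v x := by
  unfold gsq
  rw [Finset.mul_sum]
  refine Finset.sum_congr rfl fun i _ => ?_
  rw [Finset.mul_sum]
  refine Finset.sum_congr rfl fun j _ => ?_
  have h : pd j (fun y => (c • v y) i) x = c * pd j (fun y => v y i) x :=
    Pool.Agent.W22.MF.pd_const_mul c j (fun y => v y i) x
  rw [h, mul_pow]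

/-- The dissipation of the rescaled solution. -/
lemma diss_visc {ν T : ℝ} {Ω : Set V} {u : ℝ → V → V} (hν : 0 < ν)
    (h : ∫⁻ t in Ioo 0 T, ∫⁻ y in Ω, ENNReal.ofReal (gsq (u t) y) ≠ ⊤) :
    ∫⁻ t in Ioo 0 (ν * T), ∫⁻ y in Ω, ENNReal.ofReal (gsq (fun x => ν⁻¹ • u (t / ν) x) y) ≠ ⊤ := by
  have e1 : ∀ t, ∫⁻ y in Ω, ENNReal.ofReal (gsq (fun x => ν⁻¹ • u (t / ν) x) y)
      = ENNReal.ofReal (ν⁻¹ ^ 2) * ∫⁻ y in Ω, ENNReal.ofReal (gsq (u (ν⁻¹ * t)) y) := by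
    intro t
    rw [← lintegral_const_mul' _ _ ENNReal.ofReal_ne_top]
    refine lintegral_congr fun x => ?_
    rw [gsq_smul' ν⁻¹ (u (t / ν)), ENNReal.ofReal_mul (by positivity), div_eq_inv_mul]
  simp_rw [e1]
  rw [lintegral_const_mul' _ _ ENNReal.ofReal_ne_top]
  refine ENNReal.mul_ne_top ENNReal.ofReal_ne_top ?_
  have hν' : 0 < ν⁻¹ := inv_pos.2 hν
  have hemb : MeasurableEmbedding (fun t : ℝ => ν⁻¹ * t) :=
    (Homeomorph.mulLeft₀ ν⁻¹ hν'.ne').measurableEmbedding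
  have hpre : Ioo 0 (ν * T) = (fun t : ℝ => ν⁻¹ * t) ⁻¹' Ioo 0 T := by
    ext t
    simp only [mem_Ioo, mem_preimage]
    rw [inv_mul_lt_iff₀ hν]
    constructor
    · rintro ⟨h1, h2⟩
      exact ⟨mul_pos hν' h1, h2⟩
    · rintro ⟨h1, h2⟩
      exact ⟨pos_of_mul_pos_right h1 hν'.le, h2⟩
  have hmap := Real.map_volume_mul_left hν'.ne'
  have hr := hemb.restrict_map volume (Ioo 0 T)
  rw [hpre, ← hemb.lintegral_map (fun t => ∫⁻ y in Ω, ENNReal.ofReal (gsq (u t) y)), ← hr, hmap,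
    Measure.restrict_smul, lintegral_smul_measure, smul_eq_mul]
  exact ENNReal.mul_ne_top ENNReal.ofReal_ne_top h

lemma osol_abs {ν T E : ℝ} {Ω : Set V} {u : ℝ → V → V} {p : ℝ → V → ℝ} (h : OSol ν T E Ω u p) :
    OSol ν T |E| Ω u p :=
  ⟨h.openO, h.smooth_u, h.smooth_p, h.divfree, h.momentum, h.en_int, fun t ht => by
    rw [sq_abs]
    exact h.en t ht⟩

/-- General viscosity. -/
theorem kwν {C c : ℝ} (hc : 0 < c)
    (H : ∀ (T E : ℝ) (Ω : Set V) (u : ℝ → V → V) (p : ℝ → V → ℝ), 0 < T → 0 ≤ E →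
      OSol 1 T E Ω u p → ∫⁻ t in Ioo 0 T, ∫⁻ y in Ω, ENNReal.ofReal (gsq (u t) y) ≠ ⊤ →
      ∀ Q W : Set V, IsCompact Q → IsOpen W → Q ⊆ W → W ⊆ Ω →
      ∃ r₀ : ℝ, 0 < r₀ ∧ r₀ ^ 2 ≤ T ∧ ∀ r : ℝ, 0 < r → r < r₀ → ∀ S : Finset V,
        (∀ x ∈ S, x ∈ Q ∧ Sing T u x) → (∀ x ∈ S, ∀ y ∈ S, x ≠ y → r ≤ ‖x - y‖) →
        S.card * r ≤ C * ∫ x in {x ∈ W | c ^ 2 < r ^ 2 * nsq (u (T - r ^ 2)) x},
          nsq (u (T - r ^ 2)) x)
    {ν T E : ℝ} {Ω : Set V} {u : ℝ → V → V} {p : ℝ → V → ℝ} (hν : 0 < ν) (hT : 0 < T)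
    (hu : OSol ν T E Ω u p) (hd : ∫⁻ t in Ioo 0 T, ∫⁻ y in Ω, ENNReal.ofReal (gsq (u t) y) ≠ ⊤)
    {Q W : Set V} (hQ : IsCompact Q) (hW : IsOpen W) (hQW : Q ⊆ W) (hWO : W ⊆ Ω) :
    ∃ r₀ : ℝ, 0 < r₀ ∧ r₀ ^ 2 ≤ ν * T ∧ ∀ r : ℝ, 0 < r → r < r₀ → ∀ S : Finset V,
      (∀ x ∈ S, x ∈ Q ∧ Sing T u x) → (∀ x ∈ S, ∀ y ∈ S, x ≠ y → r ≤ ‖x - y‖) →
        S.card * (ν ^ 2 * r) ≤ C * ∫ x in fastW (c * ν / r) W (u (T - r ^ 2 / ν)),
          nsq (u (T - r ^ 2 / ν)) x := by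
  have hT' : 0 < ν * T := mul_pos hν hT
  obtain ⟨r₀, hr₀, hr₀T, K⟩ := H (ν * T) (|E| / ν) Ω _ _ hT' (by positivity)
    (Pool.Agent.W22.MF.t_OSC ν T |E| Ω u p hν (osol_abs hu)) (diss_visc hν hd) Q W hQ hW hQW hWO
  refine ⟨r₀, hr₀, hr₀T, fun r hr hrr S hS hsep => ?_⟩
  have et : (ν * T - r ^ 2) / ν = T - r ^ 2 / ν := by field_simp
  obtain ⟨v, hv⟩ : ∃ v, v = u (T - r ^ 2 / ν) := ⟨_, rfl⟩
  have key := K r hr hrr S (fun x hx => ⟨(hS x hx).1, sing_scale hν (hS x hx).2⟩) hsep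
  have e1 : (fun x => ν⁻¹ • u ((ν * T - r ^ 2) / ν) x) = fun x => ν⁻¹ • v x := by
    rw [et, hv]
  have e2 : ∀ x, nsq (fun x => ν⁻¹ • v x) x = (ν ^ 2)⁻¹ * nsq v x := by
    intro x
    rw [Pool.Agent.W22.MF.nsq_smul, inv_pow]
  have e3 : {x ∈ W | c ^ 2 < r ^ 2 * nsq (fun x => ν⁻¹ • v x) x} = fastW (c * ν / r) W v := by
    ext x
    unfold fastW
    simp only [mem_ofPred_eq]
    refine and_congr_right fun _ => ?_
    rw [e2, Real.lt_sqrt (by positivity), div_pow, div_lt_iff₀ (by positivity)]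
    constructor
    · intro h
      have : (c * ν) ^ 2 = c ^ 2 * ν ^ 2 := by ring
      rw [this]
      calc c ^ 2 * ν ^ 2 < r ^ 2 * ((ν ^ 2)⁻¹ * nsq v x) * ν ^ 2 := by gcongr
        _ = nsq v x * r ^ 2 := by field_simp
    · intro h
      have : r ^ 2 * ((ν ^ 2)⁻¹ * nsq v x) = (nsq v x * r ^ 2) / ν ^ 2 := by field_simp
      rw [this, lt_div_iff₀ (by positivity)]
      linarith [mul_pow c ν 2]
  rw [e1, e3] at key
  simp_rw [e2] at key
  rw [integral_const_mul] at key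
  rw [← hv]
  have hν2 : 0 < ν ^ 2 := by positivity
  calc (S.card : ℝ) * (ν ^ 2 * r) = ν ^ 2 * (S.card * r) := by ring
    _ ≤ ν ^ 2 * (C * ((ν ^ 2)⁻¹ * ∫ x in fastW (c * ν / r) W v, nsq v x)) :=
        mul_le_mul_of_nonneg_left key hν2.le
    _ = _ := by field_simp

/-- From separated sets to coverings. -/
theorem cover_sep {Z : Set V} {r N : ℝ} (hr : 0 < r)
    (h : ∀ S : Finset V, (∀ x ∈ S, x ∈ Z) →
      (∀ x ∈ S, ∀ y ∈ S, x ≠ y → r ≤ ‖x - y‖) → (S.card : ℝ) ≤ N) :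
    ∃ F : Finset V, (F.card : ℝ) ≤ N ∧ (∀ x ∈ F, x ∈ Z) ∧ ∀ x ∈ Z, ∃ y ∈ F, ‖x - y‖ < r := by
  classical
  let P : ℕ → Prop := fun n => ∃ S : Finset V, S.card = n ∧ (∀ x ∈ S, x ∈ Z) ∧
    (∀ x ∈ S, ∀ y ∈ S, x ≠ y → r ≤ ‖x - y‖)
  have hP0 : P 0 := ⟨∅, rfl, by simp, by simp⟩
  have hb : ∀ n, P n → n ≤ ⌊N⌋₊ := by
    rintro n ⟨S, rfl, h1, h2⟩
    exact Nat.le_floor (h S h1 h2)
  obtain ⟨S, hcard, h1, h2⟩ := Nat.findGreatest_spec (P := P) (Nat.zero_le ⌊N⌋₊) hP0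
  refine ⟨S, h S h1 h2, h1, fun x hx => ?_⟩
  by_contra hcon
  push Not at hcon
  have hxS : x ∉ S := fun hxS => by
    have := hcon x hxS
    rw [sub_self, norm_zero] at this
    linarith
  have hP1 : P (S.card + 1) := by
    refine ⟨insert x S, Finset.card_insert_of_notMem hxS, ?_, ?_⟩
    · intro y hy
      rcases Finset.mem_insert.1 hy with rfl | hy
      · exact hx
      · exact h1 y hy
    · intro y hy z hz hyz
      rcases Finset.mem_insert.1 hy with hyx | hy'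
      · rcases Finset.mem_insert.1 hz with hzx | hz'
        · exact absurd (hyx.trans hzx.symm) hyz
        · rw [hyx]
          exact hcon z hz'
      · rcases Finset.mem_insert.1 hz with hzx | hz'
        · rw [hzx, norm_sub_rev]
          exact hcon y hy'
        · exact h2 y hy' z hz' hyz
  have h3 := Nat.le_findGreatest (hb _ hP1) hP1
  rw [← hcard] at h3
  exact absurd h3 (by omega)

end Run7.h21.LS
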